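import Mathlib

set_option autoImplicit false

namespace Pool.Agent.H.MP_ccaf84_co
open Finset

variable {n : ℕ} [NeZero n] {K : ℕ}

def Comp (s : Fin K → Bool) (w : ZMod n → Fin K) (ρ : ZMod n ≃ Fin n) : Prop :=
  ∀ a b, ρ a < ρ b → w a < w b ∨ (w a = w b ∧ (s (w a) = true ↔ ρ (a + 1) < ρ (b + 1)))

instance (s : Fin K → Bool) (w : ZMod n → Fin K) (ρ : ZMod n ≃ Fin n) :
    Decidable (Comp s w ρ) := by unfold Comp; infer_instance

def Per {α : Type*} (w : ZMod n → α) (h : ZMod n) : Prop := ∀ a, w (a + h) = w a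

instance {α : Type*} [DecidableEq α] (w : ZMod n → α) (h : ZMod n) : Decidable (Per w h) := by
  unfold Per; infer_instance

def eps (s : Fin K → Bool) (c : Fin K) : ℤ := if s c = true then 1 else -1

def PP (s : Fin K → Bool) (w : ZMod n → Fin K) (a : ZMod n) (t : ℕ) : ℤ :=
  ∏ i ∈ range t, eps s (w (a + i))

def cmp (ρ : ZMod n ≃ Fin n) (a b : ZMod n) : ℤ := if ρ a < ρ b then 1 else -1

def Good (s : Fin K → Bool) (w : ZMod n → Fin K) : Prop :=
  ∀ h, Per w h → h ≠ 0 → 2 * h.val = n ∧ PP s w 0 h.val = -1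

variable {s : Fin K → Bool} {w : ZMod n → Fin K} {ρ ρ' : ZMod n ≃ Fin n}

lemma eps_sq (c : Fin K) : eps s c * eps s c = 1 := by unfold eps; split_ifs <;> rfl

omit [NeZero n] in
lemma PP_succ (a : ZMod n) (t : ℕ) : PP s w a (t + 1) = PP s w a t * eps s (w (a + t)) := by
  unfold PP; rw [Finset.prod_range_succ]

omit [NeZero n] in
lemma PP_succ' (a : ZMod n) (t : ℕ) : PP s w a (t + 1) = eps s (w a) * PP s w (a + 1) t := by
  unfold PP; rw [Finset.prod_range_succ', mul_comm]
  simp only [Nat.cast_zero, add_zero, Nat.cast_add, Nat.cast_one]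
  congr 1
  exact Finset.prod_congr rfl fun i _ => by congr 2; ring

omit [NeZero n] in
lemma PP_sq (a : ZMod n) (t : ℕ) : PP s w a t * PP s w a t = 1 := by
  unfold PP; rw [← Finset.prod_mul_distrib]; simp [eps_sq]

omit [NeZero n] in
lemma PP_add (a : ZMod n) (t u : ℕ) : PP s w a (t + u) = PP s w a t * PP s w (a + t) u := by
  unfold PP; rw [Finset.prod_range_add]
  congr 1
  exact Finset.prod_congr rfl fun i _ => by congr 2; push_cast; ring

lemma PP_per {t : ℕ} (h : Per w (t : ZMod n)) (a : ZMod n) : PP s w a t = PP s w 0 t := by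
  have st : ∀ a, PP s w (a + 1) t = PP s w a t := by
    intro a
    have h1 := PP_succ (s := s) (w := w) a t
    rw [PP_succ', h a] at h1
    have h2 := eps_sq (s := s) (w a)
    calc PP s w (a + 1) t = eps s (w a) * (eps s (w a) * PP s w (a + 1) t) := by
          rw [← mul_assoc, h2, one_mul]
      _ = _ := by rw [h1, mul_comm, mul_assoc, h2, mul_one]
  have : ∀ u : ℕ, PP s w (u : ZMod n) t = PP s w 0 t := by
    intro u
    induction u with
    | zero => simp
    | succ u ih => rw [Nat.cast_succ, st, ih]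
  rw [← this a.val, ZMod.natCast_zmod_val]

omit [NeZero n] in
lemma step (hρ : Comp s w ρ) {a b : ZMod n} (hab : a ≠ b) (h : w a = w b) :
    ρ a < ρ b ↔ (s (w a) = true ↔ ρ (a + 1) < ρ (b + 1)) := by
  constructor
  · intro h1
    rcases hρ a b h1 with h2 | h2
    · exact absurd h h2.ne
    · exact h2.2
  · intro h1
    by_contra h2
    have h3 : ρ b < ρ a := lt_of_le_of_ne (not_lt.1 h2) (fun e => hab (ρ.injective e).symm)
    have h4 : ρ (a + 1) ≠ ρ (b + 1) := fun e => hab (add_right_cancel (ρ.injective e))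
    rcases hρ b a h3 with h5 | h5
    · exact absurd h.symm h5.ne
    · rw [← h] at h5
      have := h1.symm.trans h5.2
      rcases lt_or_gt_of_ne h4 with h6 | h6
      · exact lt_asymm h6 (this.1 h6)
      · exact lt_asymm h6 (this.2 h6)

omit [NeZero n] in
lemma cmp_step (hρ : Comp s w ρ) {a b : ZMod n} (hab : a ≠ b) (h : w a = w b) :
    cmp ρ (a + 1) (b + 1) = eps s (w a) * cmp ρ a b := by
  have := step hρ hab h
  unfold cmp eps
  by_cases h1 : ρ a < ρ b <;> by_cases h2 : s (w a) = true <;>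
    by_cases h3 : ρ (a + 1) < ρ (b + 1) <;>
    simp only [h1, h2, h3, if_true, if_false] <;> first | rfl | tauto

omit [NeZero n] in
lemma cmp_iter (hρ : Comp s w ρ) {h : ZMod n} (hp : Per w h) (h0 : h ≠ 0) (a : ZMod n) (t : ℕ) :
    cmp ρ (a + t) (a + t + h) = PP s w a t * cmp ρ a (a + h) := by
  induction t with
  | zero => simp [PP]
  | succ t ih =>
    have := cmp_step hρ (a := a + t) (b := a + t + h) (by simpa using h0) (hp _).symm
    rw [PP_succ, Nat.cast_succ, ← add_assoc, add_right_comm _ 1 h, this, ih]; ring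

lemma min_lt (ρ : ZMod n ≃ Fin n) {x b : ZMod n} (hx : ρ x = 0) (hb : b ≠ x) : ρ x < ρ b := by
  rw [hx]
  exact Fin.pos_iff_ne_zero.2 (fun e => hb (ρ.injective (e.trans hx.symm)))

lemma nec (hρ : Comp s w ρ) {t : ℕ} (hp : Per w (t : ZMod n)) (h0 : (t : ZMod n) ≠ 0) :
    PP s w 0 t = -1 := by
  have hx : ρ (ρ.symm 0) = 0 := by simp
  set x := ρ.symm 0
  have := cmp_iter hρ hp h0 (x - t) t
  rw [PP_per hp, sub_add_cancel] at this
  unfold cmp at this
  rw [if_pos (min_lt ρ hx (by simpa using h0)), if_neg (by rw [hx]; simp)] at this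
  linarith

lemma good_of (hρ : Comp s w ρ) : Good s w := by
  intro h hp h0
  have hp' : Per w ((h.val : ℕ) : ZMod n) := by simpa using hp
  have h1 := nec hρ hp' (by simpa using h0)
  refine ⟨?_, h1⟩
  have h2 : ((h.val + h.val : ℕ) : ZMod n) = 0 := by
    by_contra h2
    have := nec hρ (t := h.val + h.val) (fun a => by
      push_cast; rw [← add_assoc, hp', hp']) h2
    rw [PP_add, PP_per hp' (0 + _), h1] at this
    norm_num at this
  obtain ⟨c, hc⟩ := (ZMod.natCast_eq_zero_iff _ _).1 h2
  have h3 := ZMod.val_lt h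
  have h4 : h.val ≠ 0 := by simpa using h0
  have : c = 1 := by
    rcases c with _ | _ | c
    · omega
    · rfl
    · nlinarith
  subst this
  omega

omit [NeZero n] in
lemma agree (hρ : Comp s w ρ) (hρ' : Comp s w ρ') : ∀ (t : ℕ) (a b : ZMod n),
    (∀ i : ℕ, i < t → w (a + i) = w (b + i)) → w (a + t) ≠ w (b + t) →
    (ρ a < ρ b ↔ ρ' a < ρ' b) := by
  intro t
  induction t with
  | zero =>
    have key : ∀ {ρ : ZMod n ≃ Fin n}, Comp s w ρ → ∀ a b, w a ≠ w b → (ρ a < ρ b ↔ w a < w b) := by
      intro ρ hρ a b hab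
      constructor
      · intro h
        rcases hρ a b h with h | h
        · exact h
        · exact absurd h.1 hab
      · intro h
        by_contra h2
        have h3 : ρ b < ρ a :=
          lt_of_le_of_ne (not_lt.1 h2) (fun e => hab (by rw [ρ.injective e]))
        rcases hρ b a h3 with h5 | h5
        · exact lt_asymm h h5
        · exact hab h5.1.symm
    intro a b _ h
    simp only [Nat.cast_zero, add_zero] at h
    rw [key hρ a b h, key hρ' a b h]
  | succ t ih =>
    intro a b h1 h2
    have hab : a ≠ b := fun e => h2 (by rw [e])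
    have h0 : w a = w b := by simpa using h1 0 (by omega)
    have e : ∀ (x : ZMod n) (i : ℕ), x + 1 + i = x + ((i + 1 : ℕ) : ZMod n) := by
      intro x i; push_cast; ring
    rw [step hρ hab h0, step hρ' hab h0, ih (a + 1) (b + 1)
      (fun i hi => by rw [e, e]; exact h1 _ (by omega)) (by rw [e, e]; exact h2)]

lemma agree' (hρ : Comp s w ρ) (hρ' : Comp s w ρ') (a b : ZMod n) (h : ¬ Per w (b - a)) :
    (ρ a < ρ b ↔ ρ' a < ρ' b) := by
  classical
  have : ∃ t : ℕ, w (a + t) ≠ w (b + t) := by
    by_contra h2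
    push Not at h2
    apply h
    intro x
    have := h2 (x - a).val
    rw [ZMod.natCast_zmod_val] at this
    rw [show x + (b - a) = b + (x - a) by ring, ← this]; congr 1; ring
  exact agree hρ hρ' (Nat.find this) a b
    (fun i hi => by simpa using Nat.find_min this hi) (Nat.find_spec this)

lemma uniq (hρ : Comp s w ρ) (hρ' : Comp s w ρ') {x : ZMod n} (hx : ρ x = 0) (hx' : ρ' x = 0) :
    ρ = ρ' := by
  have key : ∀ a b, ρ a < ρ b ↔ ρ' a < ρ' b := by
    intro a b
    by_cases hab : b - a = 0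
    · rw [sub_eq_zero.1 hab]; simp
    by_cases hp : Per w (b - a)
    · have h1 := cmp_iter hρ hp hab x (a - x).val
      have h2 := cmp_iter hρ' hp hab x (a - x).val
      rw [ZMod.natCast_zmod_val, add_sub_cancel, add_sub_cancel] at h1 h2
      unfold cmp at h1 h2
      rw [if_pos (min_lt _ hx (by simpa using hab))] at h1
      rw [if_pos (min_lt _ hx' (by simpa using hab)), ← h1] at h2
      by_cases h3 : ρ a < ρ b <;> by_cases h4 : ρ' a < ρ' b <;>
        simp only [h3, h4, if_true, if_false] at h2 ⊢ <;> omega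
    · exact agree' hρ hρ' a b hp
  have hm : StrictMono (fun i => ρ' (ρ.symm i)) := fun i j hij => (key _ _).1 (by simpa using hij)
  have := (hm.range_inj strictMono_id).1 (by
    rw [Set.range_id]
    exact (ρ'.surjective.comp ρ.symm.surjective).range_eq)
  ext a
  have h2 := congrFun this (ρ a)
  simp only [Equiv.symm_apply_apply, id] at h2
  rw [h2]

lemma card_comp (hρ : Comp s w ρ) : #{ρ' | Comp s w ρ'} = #{h | Per w h} := by
  symm
  have hc : ∀ h, Per w h → Comp s w ((Equiv.addRight h).trans ρ) := by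
    intro h hp a b hab
    simp only [Equiv.trans_apply, Equiv.coe_addRight] at hab ⊢
    have := hρ _ _ hab
    rw [hp, hp, add_right_comm a, add_right_comm b] at this
    exact this
  refine Finset.card_bij (fun h _ => (Equiv.addRight h).trans ρ) ?_ ?_ ?_
  · intro h hh
    simp only [Finset.mem_filter, Finset.mem_univ, true_and] at hh ⊢
    exact hc h hh
  · intro h _ h' _ e
    have := congrArg (fun f : ZMod n ≃ Fin n => f 0) e
    simpa using this
  · intro ρ' hρ'
    simp only [Finset.mem_filter, Finset.mem_univ, true_and] at hρ' ⊢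
    have hx : ρ (ρ.symm 0) = 0 := by simp
    have hx' : ρ' (ρ'.symm 0) = 0 := by simp
    set x := ρ.symm 0
    set x' := ρ'.symm 0
    have hp : Per w (x - x') := by
      by_contra hp
      have hne : x' ≠ x := fun e => hp (by rw [e, sub_self]; intro a; simp)
      have := agree' hρ hρ' x' x hp
      exact lt_asymm (min_lt ρ hx hne) (this.2 (min_lt ρ' hx' hne.symm))
    exact ⟨x - x', hp, uniq (hc _ hp) hρ' (x := x') (by simpa using hx) hx'⟩

lemma ex_rank {α L : Type*} [Fintype α] [LinearOrder L] {m : ℕ} (hm : Fintype.card α = m)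
    (κ : α → L) (hκ : Function.Injective κ) : ∃ ρ : α ≃ Fin m, ∀ a b, ρ a < ρ b ↔ κ a < κ b := by
  let : LinearOrder α := LinearOrder.lift' κ hκ
  refine ⟨(monoEquivOfFin α hm).symm.toEquiv, fun a b => ?_⟩
  exact (monoEquivOfFin α hm).symm.lt_iff_lt

lemma ex_comp (hg : Good s w) : ∃ ρ, Comp s w ρ := by
  let u : ZMod n → ℕ → ℤ := fun a t => PP s w a t * ((w (a + t)).val : ℤ)
  let τ : ZMod n → ℤ := fun a => PP s w 0 a.val
  have u0 : ∀ a, u a 0 = (w a).val := by intro a; simp [u, PP]
  have us : ∀ a t, u a (t + 1) = eps s (w a) * u (a + 1) t := by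
    intro a t
    simp only [u]
    rw [PP_succ', Nat.cast_succ, mul_assoc, add_assoc, add_comm 1]
  have uper : ∀ a b, u a = u b → Per w (b - a) := by
    intro a b h
    have h1 : ∀ t : ℕ, PP s w a t = PP s w b t ∧ w (a + t) = w (b + t) := by
      have aux : ∀ t : ℕ, PP s w a t = PP s w b t → w (a + t) = w (b + t) := by
        intro t ht
        have h2 := congrFun h t
        simp only [u] at h2
        rw [ht] at h2
        have h3 : PP s w b t ≠ 0 := fun e => by simpa [e] using PP_sq (s := s) (w := w) b t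
        exact Fin.ext (by exact_mod_cast mul_left_cancel₀ h3 h2)
      intro t
      induction t with
      | zero => exact ⟨by simp [PP], aux 0 (by simp [PP])⟩
      | succ t ih =>
        have : PP s w a (t + 1) = PP s w b (t + 1) := by rw [PP_succ, PP_succ, ih.1, ih.2]
        exact ⟨this, aux _ this⟩
    intro x
    have := (h1 (x - a).val).2
    rw [ZMod.natCast_zmod_val] at this
    rw [show x + (b - a) = b + (x - a) by ring, ← this]; congr 1; ring
  have τs : ∀ h, Per w h → h ≠ 0 → ∀ a, τ (a + 1) = eps s (w a) * τ a := by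
    intro h hp h0 a
    obtain ⟨h1, h2⟩ := hg h hp h0
    have hp' : Per w ((h.val : ℕ) : ZMod n) := by simpa using hp
    have hn : PP s w 0 n = 1 := by
      have : PP s w 0 (h.val + h.val) = 1 := by rw [PP_add, PP_per hp' (0 + _), h2]; norm_num
      rwa [← two_mul, h1] at this
    have h3 : PP s w 0 (a.val + 1) = eps s (w a) * τ a := by
      rw [PP_succ, mul_comm]; simp [τ]
    rw [← h3]
    simp only [τ]
    have h4 : (a + 1).val = (a.val + 1) % n := by
      conv_lhs => rw [← ZMod.natCast_zmod_val a, ← Nat.cast_succ, ZMod.val_natCast]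
    rcases (Nat.succ_le_of_lt (ZMod.val_lt a)).lt_or_eq with h5 | h5
    · rw [h4, Nat.mod_eq_of_lt h5]
    · have h5' : a.val + 1 = n := h5
      rw [h4, h5', Nat.mod_self, hn]; simp [PP]
  have τh : ∀ h, Per w h → h ≠ 0 → ∀ a, τ (a + h) = - τ a := by
    intro h hp h0 a
    have hp' : Per w ((h.val : ℕ) : ZMod n) := by simpa using hp
    have : ∀ t : ℕ, τ (a + t) = PP s w a t * τ a := by
      intro t
      induction t with
      | zero => simp [PP]
      | succ t ih => rw [Nat.cast_succ, ← add_assoc, τs h hp h0, ih, PP_succ]; ring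
    have h2 := this h.val
    rw [ZMod.natCast_zmod_val, PP_per hp', (hg h hp h0).2] at h2
    linarith
  let κ : ZMod n → Lex (Lex (ℕ → ℤ) × ℤ) := fun a => toLex (toLex (u a), τ a)
  have hκ : Function.Injective κ := by
    intro a b hab
    have h1 : u a = u b := congrArg (fun z : Lex (Lex (ℕ → ℤ) × ℤ) => ofLex (ofLex z).1) hab
    have h2 : τ a = τ b := congrArg (fun z : Lex (Lex (ℕ → ℤ) × ℤ) => (ofLex z).2) hab
    by_contra hne
    have := τh _ (uper a b h1) (sub_ne_zero.2 (Ne.symm hne)) a
    rw [add_sub_cancel, ← h2] at this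
    have h3 : τ a * τ a = 1 := PP_sq _ _
    have : τ a = 0 := by linarith
    simp [this] at h3
  obtain ⟨ρ, hρ⟩ := ex_rank (ZMod.card n) κ hκ
  have hlt : ∀ a b, κ a < κ b ↔
      (∃ i, (∀ j < i, u a j = u b j) ∧ u a i < u b i) ∨ (u a = u b ∧ τ a < τ b) := by
    intro a b
    simp only [κ]
    rw [Prod.Lex.toLex_lt_toLex]
    rfl
  refine ⟨ρ, fun a b hab => ?_⟩
  rw [hρ, hlt] at hab
  have fin : w a = w b → (s (w a) = true → κ (a + 1) < κ (b + 1)) →
      (¬ s (w a) = true → κ (b + 1) < κ (a + 1)) →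
      w a < w b ∨ (w a = w b ∧ (s (w a) = true ↔ ρ (a + 1) < ρ (b + 1))) := by
    intro h1 h2 h3
    refine Or.inr ⟨h1, fun h => (hρ _ _).2 (h2 h), fun h => ?_⟩
    by_contra h4
    exact lt_asymm ((hρ _ _).1 h) (h3 h4)
  rcases hab with ⟨i, h1, h2⟩ | ⟨h1, h2⟩
  · rcases i with _ | i
    · rw [u0, u0] at h2
      exact Or.inl (by exact_mod_cast h2)
    · have h3 : w a = w b := by
        have := h1 0 (by omega)
        rw [u0, u0] at this
        exact Fin.ext (by exact_mod_cast this)
      have h4 : ∀ j < i, u (a + 1) j = u (b + 1) j := by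
        intro j hj
        have := h1 (j + 1) (by omega)
        rw [us, us, ← h3] at this
        exact mul_left_cancel₀ (fun e => by simpa [e] using eps_sq (s := s) (w a)) this
      rw [us, us, ← h3] at h2
      refine fin h3 (fun h => (hlt _ _).2 (Or.inl ⟨i, h4, ?_⟩))
        (fun h => (hlt _ _).2 (Or.inl ⟨i, fun j hj => (h4 j hj).symm, ?_⟩))
      · simpa [eps, h] using h2
      · simpa [eps, h] using h2
  · have h3 : w a = w b := by
      have := congrFun h1 0
      rw [u0, u0] at this
      exact Fin.ext (by exact_mod_cast this)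
    have h4 : u (a + 1) = u (b + 1) := by
      funext j
      have := congrFun h1 (j + 1)
      rw [us, us, ← h3] at this
      exact mul_left_cancel₀ (fun e => by simpa [e] using eps_sq (s := s) (w a)) this
    have hne : b - a ≠ 0 := fun e => by rw [sub_eq_zero.1 e] at h2; exact lt_irrefl _ h2
    have h5 := τs _ (uper a b h1) hne
    refine fin h3 (fun h => (hlt _ _).2 (Or.inr ⟨h4, ?_⟩))
      (fun h => (hlt _ _).2 (Or.inr ⟨h4.symm, ?_⟩))
    · rw [h5, h5, ← h3]; simpa [eps, h] using h2
    · rw [h5, h5, ← h3]; simpa [eps, h] using h2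

lemma card_eq {s' : Fin K → Bool} {w' : ZMod n → Fin K} (hp : ∀ h, Per w h ↔ Per w' h)
    (hg : Good s w ↔ Good s' w') : #{ρ | Comp s w ρ} = #{ρ | Comp s' w' ρ} := by
  by_cases h : Good s w
  · obtain ⟨ρ, hρ⟩ := ex_comp h
    obtain ⟨ρ', hρ'⟩ := ex_comp (hg.1 h)
    rw [card_comp hρ, card_comp hρ']
    simp only [hp]
  · rw [Finset.filter_eq_empty_iff.2 (fun ρ _ hρ => h (good_of hρ)),
      Finset.filter_eq_empty_iff.2 (fun ρ _ hρ => h (hg.2 (good_of hρ)))]

end Pool.Agent.H.MP_ccaf84_co
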