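import Mathlib

set_option autoImplicit false

namespace Pool.Agent.H.MP_ccaf84_co
open Finset

/-- sign of a letter: even letters are increasing -/
def sg (a : ℕ) : Bool := decide (a % 2 = 0)

def S (j : ℕ) (y : ℕ → ℕ) (a : ℕ) : ℕ := ∑ c ∈ Ico (a + 1) (2 * j + 1), y c

def M (j : ℕ) (x : Bool) (y : ℕ → ℕ) (a : ℕ) : ℕ :=
  S j y a + if a < 2 * j + 1 ∧ sg a = x then y a else 0

def V (j : ℕ) : List Bool → ℕ → ℕ
  | [] => fun _ => 1
  | x :: u => M j x (V j u)

lemma S_step (j : ℕ) (y : ℕ → ℕ) (a : ℕ) (h : a + 1 < 2 * j + 1) :
    S j y a = y (a + 1) + S j y (a + 1) := by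
  unfold S; rw [Finset.sum_eq_sum_Ico_succ_bot h]

lemma S_top (j : ℕ) (y : ℕ → ℕ) (a : ℕ) (h : 2 * j ≤ a) : S j y a = 0 := by
  unfold S; rw [Finset.Ico_eq_empty (by omega)]; simp

lemma M_T (j : ℕ) (y : ℕ → ℕ) (a : ℕ) (h : a ≤ 2 * j) :
    M j true y a = S j y a + if a % 2 = 0 then y a else 0 := by
  unfold M sg; by_cases h2 : a % 2 = 0 <;> simp [h2]; omega

lemma M_F (j : ℕ) (y : ℕ → ℕ) (a : ℕ) (h : a ≤ 2 * j) :
    M j false y a = S j y a + if a % 2 = 0 then 0 else y a := by
  unfold M sg; by_cases h2 : a % 2 = 0 <;> simp [h2]; omega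

lemma M_big (j : ℕ) (x : Bool) (y : ℕ → ℕ) (a : ℕ) (h : 2 * j < a) : M j x y a = 0 := by
  unfold M; rw [S_top j y a (by omega), if_neg (by omega)]

def PU (j : ℕ) (y : ℕ → ℕ) : Prop := ∀ a, a % 2 = 1 → a + 1 ≤ 2 * j → y a = y (a + 1)

def PD (j : ℕ) (y : ℕ → ℕ) : Prop :=
  (∀ a, a % 2 = 0 → a + 1 ≤ 2 * j → y a = y (a + 1)) ∧ y (2 * j) = 0

lemma PU_M (j : ℕ) (v : ℕ → ℕ) : PU j (M j true v) := by
  intro a h1 h2
  rw [M_T j v a (by omega), M_T j v (a + 1) h2, S_step j v a (by omega), if_neg (by omega),
    if_pos (by omega)]
  omega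

lemma PD_M (j : ℕ) (v : ℕ → ℕ) : PD j (M j false v) := by
  refine ⟨fun a h1 h2 => ?_, ?_⟩
  · rw [M_F j v a (by omega), M_F j v (a + 1) h2, S_step j v a (by omega), if_pos (by omega),
      if_neg (by omega)]
    omega
  · rw [M_F j v _ le_rfl, S_top j v _ le_rfl, if_pos (by omega)]

lemma DD (j : ℕ) (y : ℕ → ℕ) (hy : PU j y) :
    M j false (M j false y) = M j false (M j true y) := by
  have key : ∀ d a, a + d = 2 * j →
      S j (M j false y) a + (if a % 2 = 0 then 0 else y a) = S j (M j true y) a := by
    intro d
    induction d with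
    | zero => intro a h; rw [S_top _ _ _ (by omega), S_top _ _ _ (by omega), if_pos (by omega)]
    | succ d ih =>
      intro a h
      have := ih (a + 1) (by omega)
      rw [S_step _ _ a (by omega), S_step j (M j true y) a (by omega), M_T _ _ _ (by omega),
        M_F _ _ _ (by omega)]
      by_cases h2 : a % 2 = 0
      · rw [if_neg (by omega)] at this
        rw [if_neg (by omega), if_pos h2, if_neg (by omega)]; omega
      · rw [if_pos (by omega)] at this
        rw [if_pos (by omega), if_neg h2, if_pos (by omega), hy a (by omega) (by omega)]; omega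
  funext a
  by_cases ha : a ≤ 2 * j
  · have := key (2 * j - a) a (by omega)
    rw [M_F j _ a ha, M_F j (M j true y) a ha, M_F j y a ha, M_T j y a ha]
    by_cases h2 : a % 2 = 0 <;> simp only [h2, if_true, if_false] at this ⊢ <;> omega
  · rw [M_big _ _ _ _ (by omega), M_big _ _ _ _ (by omega)]

lemma UU (j : ℕ) (y : ℕ → ℕ) (hy : PD j y) :
    M j true (M j false y) = M j true (M j true y) := by
  have key : ∀ d a, a + d = 2 * j →
      S j (M j true y) a + (if a % 2 = 0 then y a else 0) = S j (M j false y) a := by
    intro d
    induction d with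
    | zero =>
      intro a h
      have : a = 2 * j := by omega
      subst this
      rw [S_top _ _ _ (by omega), S_top _ _ _ (by omega), if_pos (by omega), hy.2]
    | succ d ih =>
      intro a h
      have := ih (a + 1) (by omega)
      rw [S_step _ _ a (by omega), S_step j (M j false y) a (by omega), M_T _ _ _ (by omega),
        M_F _ _ _ (by omega)]
      by_cases h2 : a % 2 = 0
      · rw [if_neg (by omega)] at this
        rw [if_neg (by omega), if_pos h2, if_neg (by omega), hy.1 a h2 (by omega)]; omega
      · rw [if_pos (by omega)] at this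
        rw [if_pos (by omega), if_neg h2, if_pos (by omega)]; omega
  funext a
  by_cases ha : a ≤ 2 * j
  · have := key (2 * j - a) a (by omega)
    rw [M_T j _ a ha, M_T j (M j true y) a ha, M_F j y a ha, M_T j y a ha]
    by_cases h2 : a % 2 = 0 <;> simp only [h2, if_true, if_false] at this ⊢ <;> omega
  · rw [M_big _ _ _ _ (by omega), M_big _ _ _ _ (by omega)]

/-- number of factors (true,false) in `x :: u` -/
def pk : Bool → List Bool → ℕ
  | _, [] => 0
  | x, y :: u => (if x = true ∧ y = false then 1 else 0) + pk y u

lemma exU : ∀ (u : List Bool), ∃ z : List Bool, z.length = u.length ∧ pk true z = pk false u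
  | [] => ⟨[], rfl, rfl⟩
  | true :: u => ⟨true :: u, rfl, by simp [pk]⟩
  | false :: u => by
    obtain ⟨z, h1, h2⟩ := exU u
    exact ⟨true :: z, by simp [h1], by simp [pk, h2]⟩

lemma exD : ∀ (u : List Bool), 1 ≤ pk true u →
    ∃ z : List Bool, z.length + 1 = u.length ∧ pk false z + 1 = pk true u
  | [] => by simp [pk]
  | false :: u => fun _ => ⟨u, rfl, by simp [pk]; omega⟩
  | true :: u => fun h => by
    obtain ⟨z, h1, h2⟩ := exD u (by simpa [pk] using h)
    exact ⟨false :: z, by simp [h1], by simp [pk, h2]⟩

lemma dep (j : ℕ) : ∀ (l : ℕ) (x : Bool) (u u' : List Bool), u.length = l → u'.length = l →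
    pk x u = pk x u' → V j (x :: u) = V j (x :: u') := by
  intro l
  induction l with
  | zero =>
    intro x u u' h h' _
    rw [List.length_eq_zero_iff.1 h, List.length_eq_zero_iff.1 h']
  | succ l ih =>
    have main : ∀ (x : Bool) (v v' : List Bool), v.length = l → v'.length = l →
        pk x (false :: v) = pk x (true :: v') → V j (x :: false :: v) = V j (x :: true :: v') := by
      intro x v v' h h' hp
      cases x with
      | false =>
        have hp' : pk false v = pk true v' := by simpa [pk] using hp
        cases v with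
        | nil =>
          have : v' = [] := List.length_eq_zero_iff.1 (by rw [h', ← h]; rfl)
          subst this
          exact DD j _ (fun _ _ _ => rfl)
        | cons y v2 =>
          have hz : ∃ z : List Bool, z.length = v2.length ∧ pk true z = pk y v2 := by
            cases y with
            | true => exact ⟨v2, rfl, rfl⟩
            | false => exact exU v2
          obtain ⟨z, hz1, hz2⟩ := hz
          have e1 : V j (false :: y :: v2) = V j (false :: true :: z) :=
            ih false _ _ h (by rw [← h]; simp [hz1]) (by simp [pk, hz2])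
          have e2 : V j (true :: v') = V j (true :: true :: z) :=
            ih true _ _ h' (by rw [← h]; simp [hz1]) (by rw [← hp']; simp [pk, hz2])
          show M j false (V j (false :: y :: v2)) = M j false (V j (true :: v'))
          rw [e1, e2]
          exact DD j _ (PU_M j _)
      | true =>
        have hp' : 1 + pk false v = pk true v' := by simpa [pk] using hp
        obtain ⟨z, hz1, hz2⟩ := exD v' (by omega)
        have e1 : V j (false :: v) = V j (false :: false :: z) :=
          ih false _ _ h (by simp; omega) (by simp [pk]; omega)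
        have e2 : V j (true :: v') = V j (true :: false :: z) :=
          ih true _ _ h' (by simp; omega) (by simp [pk]; omega)
        show M j true (V j (false :: v)) = M j true (V j (true :: v'))
        rw [e1, e2]
        exact UU j _ (PD_M j _)
    intro x u u' h h' hp
    obtain ⟨y, v, rfl⟩ : ∃ y v, u = y :: v := by
      cases u with
      | nil => simp at h
      | cons y v => exact ⟨y, v, rfl⟩
    obtain ⟨y', v', rfl⟩ : ∃ y v, u' = y :: v := by
      cases u' with
      | nil => simp at h'
      | cons y v => exact ⟨y, v, rfl⟩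
    have hv : v.length = l := by simpa using h
    have hv' : v'.length = l := by simpa using h'
    by_cases hy : y = y'
    · subst hy
      have : pk y v = pk y v' := by simp only [pk] at hp; omega
      show M j x (V j (y :: v)) = M j x (V j (y :: v'))
      rw [ih y v v' hv hv' this]
    · cases y <;> cases y'
      · exact absurd rfl hy
      · exact main x v v' hv hv' hp
      · exact (main x v' v hv' hv hp.symm).symm
      · exact absurd rfl hy

lemma pk_le (u : List Bool) : pk false u ≤ pk true u ∧ pk true u ≤ pk false u + 1 := by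
  cases u with
  | nil => simp [pk]
  | cons y v => cases y <;> simp [pk]; omega

lemma sg_succ (a : ℕ) : sg (a + 1) = !sg a := by
  unfold sg; by_cases h : a % 2 = 0
  · simp [h]; omega
  · simp [h]; omega

lemma q_mono (u : List Bool) (a : ℕ) :
    (a + 1) / 2 + pk (sg a) u ≤ (a + 1 + 1) / 2 + pk (sg (a + 1)) u := by
  have := pk_le u
  rw [sg_succ]
  by_cases h : a % 2 = 0
  · have : sg a = true := by simp [sg, h]
    rw [this]; simp; omega
  · have : sg a = false := by simp [sg, h]
    rw [this]; simp; omega

lemma q_mono' (u : List Bool) (a c : ℕ) (h : a ≤ c) :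
    (a + 1) / 2 + pk (sg a) u ≤ (c + 1) / 2 + pk (sg c) u := by
  induction c, h using Nat.le_induction with
  | base => exact le_rfl
  | succ c _ ih => exact ih.trans (q_mono u c)

lemma V_pos (j : ℕ) : ∀ (u : List Bool) (a : ℕ), a ≤ 2 * j →
    (0 < V j u a ↔ (a + 1) / 2 + pk (sg a) u ≤ j) := by
  intro u
  induction u with
  | nil => intro a ha; simp [V, pk]; omega
  | cons x u ih =>
    intro a ha
    have hS : 0 < S j (V j u) a ↔ (a + 1 + 1) / 2 + pk (sg (a + 1)) u ≤ j := by
      unfold S
      rw [Nat.pos_iff_ne_zero, Ne, Finset.sum_eq_zero_iff]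
      push Not
      constructor
      · rintro ⟨c, hc, h0⟩
        rw [Finset.mem_Ico] at hc
        exact (q_mono' u (a + 1) c hc.1).trans ((ih c (by omega)).1 (Nat.pos_of_ne_zero h0))
      · intro h
        exact ⟨a + 1, Finset.mem_Ico.2 ⟨le_rfl, by omega⟩, ((ih (a + 1) (by omega)).2 h).ne'⟩
    show 0 < M j x (V j u) a ↔ _
    unfold M
    by_cases hx : sg a = x
    · rw [if_pos ⟨by omega, hx⟩]
      have e : pk (sg a) (x :: u) = pk (sg a) u := by rw [← hx]; simp [pk]
      rw [e, ← ih a ha]
      have := q_mono u a
      have h3 := ih a ha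
      constructor
      · intro h
        rcases Nat.eq_zero_or_pos (V j u a) with h0 | h0
        · exact h3.2 (this.trans (hS.1 (by omega)))
        · exact h0
      · intro h; omega
    · rw [if_neg (by tauto), add_zero, hS, sg_succ]
      by_cases h : a % 2 = 0
      · have e : sg a = true := by simp [sg, h]
        have : x = false := by cases x <;> simp_all
        subst this
        rw [e]; simp [pk]; omega
      · have e : sg a = false := by simp [sg, h]
        have : x = true := by cases x <;> simp_all
        subst this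
        rw [e]; simp [pk]; omega

end Pool.Agent.H.MP_ccaf84_co
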