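import Pool.Agent.H.MP_ccaf84_co.B

set_option autoImplicit false

namespace Pool.Agent.H.MP_ccaf84_co
open Finset

def St {K : ℕ} (x : Bool) (c c' : Fin K) : Prop := c < c' ∨ (c = c' ∧ sg c = x)

instance {K : ℕ} (x : Bool) (c c' : Fin K) : Decidable (St x c c') := by
  unfold St; infer_instance

lemma M_eq (j : ℕ) (x : Bool) (y : ℕ → ℕ) (a : Fin (2 * j + 1)) :
    M j x y a = ∑ c : Fin (2 * j + 1), if St x a c then y c else 0 := by
  have h1 : ∀ c : Fin (2 * j + 1), (if St x a c then y c else 0) =
      (if (a : ℕ) < c then y c else 0) + (if c = a then (if sg a = x then y a else 0) else 0) := by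
    intro c
    unfold St
    by_cases h : a < c
    · have h' : (a : ℕ) < c := h
      have h2 : c ≠ a := ne_of_gt h
      simp [h, h', h2]
    · have h' : ¬ (a : ℕ) < c := h
      by_cases h2 : c = a
      · subst h2; simp
      · have h3 : ¬ a = c := fun e => h2 e.symm
        simp [h, h', h2, h3]
  simp only [h1, Finset.sum_add_distrib, Finset.sum_ite_eq', Finset.mem_univ, if_true]
  unfold M S
  congr 1
  · rw [Fin.sum_univ_eq_sum_range (fun c => if (a : ℕ) < c then y c else 0), ← Finset.sum_filter]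
    congr 1
    ext c; simp; omega
  · have := a.2
    simp [this]

lemma cnt (j : ℕ) : ∀ (l : ℕ) (x : Fin l → Bool) (a : Fin (2 * j + 1)),
    #{g : Fin l → Fin (2 * j + 1) | ∀ i : Fin l,
      St (x i) ((Fin.cons a g : Fin (l + 1) → Fin (2 * j + 1)) i.castSucc) (g i)} =
      V j (List.ofFn x) a := by
  intro l
  induction l with
  | zero => intro x a; simp [V]
  | succ l ih =>
    intro x a
    rw [List.ofFn_succ]
    show _ = M j (x 0) _ a
    rw [M_eq, Finset.card_filter,
      ← (Fin.consEquiv (fun _ : Fin (l + 1) => Fin (2 * j + 1))).sum_comp, Fintype.sum_prod_type]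
    refine Finset.sum_congr rfl fun c _ => ?_
    rw [← ih (fun i => x i.succ) c, Finset.card_filter]
    by_cases h : St (x 0) a c
    · rw [if_pos h]
      refine Finset.sum_congr rfl fun g _ => ?_
      congr 1
      simp only [Fin.consEquiv, Equiv.coe_fn_mk, Fin.forall_fin_succ, Fin.cons_zero, Fin.cons_succ,
        Fin.castSucc_zero, ← Fin.succ_castSucc, h, true_and]
    · rw [if_neg h]
      refine Finset.sum_eq_zero fun g _ => ?_
      rw [if_neg]
      intro h2
      exact h (by simpa [Fin.consEquiv] using h2 0)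

/-- local chains -/
def Loc (j : ℕ) {l : ℕ} (x : Fin l → Bool) (f : Fin (l + 1) → Fin (2 * j + 1)) : Prop :=
  ∀ i : Fin l, St (x i) (f i.castSucc) (f i.succ)

instance (j : ℕ) {l : ℕ} (x : Fin l → Bool) : DecidablePred (Loc j x) := by
  intro f; unfold Loc; infer_instance

lemma cnt' (j l : ℕ) (x : Fin l → Bool) :
    #{f | Loc j x f} = V j (true :: List.ofFn x) 0 := by
  have := cnt j (l + 1) (Fin.cons true x) 0
  rw [List.ofFn_succ] at this
  simp only [Fin.cons_zero, Fin.cons_succ] at this
  rw [← Fin.val_zero (2 * j + 1), ← this]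
  congr 1
  ext f
  simp only [Finset.mem_filter, Finset.mem_univ, true_and, Loc, Fin.forall_fin_succ, Fin.cons_zero,
    Fin.cons_succ, Fin.castSucc_zero, ← Fin.succ_castSucc]
  constructor
  · intro h
    refine ⟨?_, h⟩
    unfold St
    rcases (Fin.zero_le (f 0)).lt_or_eq with h0 | h0
    · exact Or.inl h0
    · exact Or.inr ⟨h0, rfl⟩
  · exact fun h => h.2

lemma tri {R : Type*} [Fintype R] (L1 L2 : R → ℕ) (c : ℕ → ℕ → ℕ) (hc : ∀ j, 0 < c j j)
    (h0 : ∀ i j, j < i → c i j = 0) (h : ∀ j, ∑ r, c (L1 r) j = ∑ r, c (L2 r) j) (j : ℕ) :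
    #{r | L1 r = j} = #{r | L2 r = j} := by
  have e : ∀ (L : R → ℕ) (j : ℕ), ∑ r, c (L r) j = ∑ i ∈ range (j + 1), #{r | L r = i} * c i j := by
    intro L j
    simp only [Finset.card_filter, Finset.sum_mul]
    rw [Finset.sum_comm]
    refine Finset.sum_congr rfl fun r _ => ?_
    simp only [ite_mul, one_mul, zero_mul, Finset.sum_ite_eq, Finset.mem_range]
    split_ifs with h1
    · rfl
    · exact h0 _ _ (by omega)
  induction j using Nat.strong_induction_on with
  | _ j ih =>
    have := h j
    rw [e, e, Finset.sum_range_succ, Finset.sum_range_succ,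
      Finset.sum_congr rfl (fun i hi => by rw [ih i (Finset.mem_range.1 hi)])] at this
    exact Nat.eq_of_mul_eq_mul_right (hc j) (Nat.add_left_cancel this)

lemma tri' {R : Type*} [Fintype R] (l : ℕ) (x1 x2 : R → Fin l → Bool)
    (h : ∀ j, ∑ r, #{f | Loc j (x1 r) f} = ∑ r, #{f | Loc j (x2 r) f}) (j : ℕ) :
    #{r | pk true (List.ofFn (x1 r)) ≤ j} = #{r | pk true (List.ofFn (x2 r)) ≤ j} := by
  classical
  let c : ℕ → ℕ → ℕ := fun i j =>
    if h : ∃ u : List Bool, u.length = l ∧ pk true u = i then V j (true :: h.choose) 0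
    else if i ≤ j then 1 else 0
  have hc : ∀ (x : Fin l → Bool) j, #{f | Loc j x f} = c (pk true (List.ofFn x)) j := by
    intro x j
    have hx : ∃ u : List Bool, u.length = l ∧ pk true u = pk true (List.ofFn x) :=
      ⟨List.ofFn x, by simp, rfl⟩
    simp only [c, dif_pos hx]
    rw [cnt', dep j l true _ _ (by simp) hx.choose_spec.1 hx.choose_spec.2.symm]
  have hp : ∀ i j, 0 < c i j ↔ i ≤ j := by
    intro i j
    simp only [c]
    split_ifs with h1 h2
    · rw [V_pos j _ 0 (by omega)]
      have : pk (sg 0) (true :: h1.choose) = i := by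
        refine Eq.trans ?_ h1.choose_spec.2
        simp [pk, sg]
      rw [this]; simp
    · simp [h2]
    · simp [h2]
  have key := tri (fun r => pk true (List.ofFn (x1 r))) (fun r => pk true (List.ofFn (x2 r))) c
    (fun j => (hp j j).2 le_rfl)
    (fun i j hij => by have := hp i j; omega) (fun j => by simpa only [hc] using h j)
  have e : ∀ L : R → ℕ, #{r | L r ≤ j} = ∑ i ∈ range (j + 1), #{r | L r = i} := by
    intro L
    simp only [Finset.card_filter]
    rw [Finset.sum_comm]
    refine Finset.sum_congr rfl fun r _ => ?_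
    simp
  rw [e, e]
  exact Finset.sum_congr rfl fun i _ => key i

lemma loc_ex (j l : ℕ) (x : Fin l → Bool) :
    (∃ f, Loc j x f) ↔ pk true (List.ofFn x) ≤ j := by
  have := V_pos j (true :: List.ofFn x) 0 (by omega)
  rw [← cnt', Finset.card_pos] at this
  have e : pk (sg 0) (true :: List.ofFn x) = pk true (List.ofFn x) := by simp [pk, sg]
  rw [e] at this
  simp only [zero_add, Nat.reduceDiv] at this
  rw [← this]
  constructor
  · rintro ⟨f, hf⟩; exact ⟨f, by simpa using hf⟩
  · rintro ⟨f, hf⟩; exact ⟨f, by simpa using hf⟩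

end Pool.Agent.H.MP_ccaf84_co
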