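import Pool.Agent.H.MP_ccaf84_co.A
import Pool.Agent.H.MP_ccaf84_co.C

set_option autoImplicit false

namespace Pool.Agent.H.MP_ccaf84_co
open Finset

variable {n : ℕ} [NeZero n] {j : ℕ}

def sP (j : ℕ) : Fin (2 * j + 1) → Bool := fun c => sg c
def sM (j : ℕ) : Fin (2 * j + 1) → Bool := fun c => !sg c

def flp (c : Fin (2 * j + 1)) : Fin (2 * j + 1) :=
  if h : c.val % 2 = 1 then ⟨c.val + 1, by have := c.2; omega⟩ else ⟨c.val - 1, by omega⟩

def cl (w : ZMod n → Fin (2 * j + 1)) : ZMod n → ℕ := fun a => ((w a).val + 1) / 2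

def FF (v : ZMod n → ℕ) (a : ZMod n) : Prop := ∃ h : (∃ p, v p ≠ 0), Per v (a - h.choose)

open Classical in
noncomputable def phi (w : ZMod n → Fin (2 * j + 1)) : ZMod n → Fin (2 * j + 1) :=
  fun a => if FF (cl w) a then flp (w a) else w a

def PerG {α : Type*} (v : ZMod n → α) : AddSubgroup (ZMod n) where
  carrier := {h | Per v h}
  zero_mem' := fun a => by simp
  add_mem' := fun {x y} hx hy a => by rw [← add_assoc, hy, hx]
  neg_mem' := fun {x} hx a => by rw [← hx (a + -x)]; simp

omit [NeZero n] in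
lemma FF_ne {v : ZMod n → ℕ} {a : ZMod n} (h : FF v a) : v a ≠ 0 := by
  obtain ⟨h1, h2⟩ := h
  have := h2 h1.choose
  rw [add_sub_cancel] at this
  rw [this]; exact h1.choose_spec

omit [NeZero n] in
lemma FF_per {v : ZMod n → ℕ} {h : ZMod n} (hp : Per v h) (a : ZMod n) :
    FF v (a + h) ↔ FF v a := by
  unfold FF
  refine exists_congr fun h1 => ?_
  rw [add_sub_right_comm]
  exact (PerG v).add_mem_cancel_right (x := h) hp

lemma flp_val (c : Fin (2 * j + 1)) :
    (flp c).val = if c.val % 2 = 1 then c.val + 1 else c.val - 1 := by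
  unfold flp; split_ifs <;> rfl

omit [NeZero n] in
lemma cl_phi (w : ZMod n → Fin (2 * j + 1)) : cl (phi w) = cl w := by
  funext a
  unfold phi
  by_cases h : FF (cl w) a
  · have := FF_ne h
    simp only [cl, if_pos h, flp_val] at this ⊢
    split_ifs <;> omega
  · simp only [cl, if_neg h]

omit [NeZero n] in
lemma phi_phi (w : ZMod n → Fin (2 * j + 1)) : phi (phi w) = w := by
  funext a
  rw [phi, cl_phi]
  by_cases h : FF (cl w) a
  · have := FF_ne h
    simp only [phi, if_pos h]
    apply Fin.ext
    simp only [cl, flp_val] at this ⊢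
    split_ifs <;> omega
  · simp only [phi, if_neg h]

omit [NeZero n] in
lemma per_cl {w : ZMod n → Fin (2 * j + 1)} {h : ZMod n} (hp : Per w h) : Per (cl w) h :=
  fun a => by simp only [cl]; rw [hp]

omit [NeZero n] in
lemma per_phi {w : ZMod n → Fin (2 * j + 1)} {h : ZMod n} (hp : Per w h) : Per (phi w) h := by
  intro a
  simp only [phi]
  rw [FF_per (per_cl hp), hp]

omit [NeZero n] in
lemma PP_M (w : ZMod n → Fin (2 * j + 1)) (t : ℕ) :
    PP (sM j) w 0 t = (-1) ^ t * PP (sP j) w 0 t := by
  induction t with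
  | zero => simp [PP]
  | succ t ih =>
    rw [PP_succ, PP_succ, ih]
    have : ∀ c, eps (sM j) c = - eps (sP j) c := by
      intro c; unfold eps sM sP; cases sg c <;> simp
    rw [this]; ring

open Classical in
omit [NeZero n] in
lemma PP_phi (w : ZMod n → Fin (2 * j + 1)) (t : ℕ) :
    PP (sP j) (phi w) 0 t = (-1) ^ #((range t).filter (fun i : ℕ => FF (cl w) (i : ZMod n))) * PP (sP j) w 0 t := by
  induction t with
  | zero => simp [PP]
  | succ t ih =>
    rw [PP_succ, PP_succ, ih, Finset.range_add_one, Finset.filter_insert, zero_add]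
    by_cases h : FF (cl w) (t : ZMod n)
    · rw [if_pos h, Finset.card_insert_of_notMem (by simp)]
      have h2 := FF_ne h
      have : eps (sP j) (phi w t) = - eps (sP j) (w t) := by
        simp only [phi, if_pos h, eps, sP, sg, flp_val, decide_eq_true_eq]
        simp only [cl] at h2
        split_ifs <;> omega
      rw [this]; ring
    · rw [if_neg h]
      simp only [phi, if_neg h]; ring

open Classical in
lemma odd_cnt {v : ZMod n → ℕ} (hv : ∃ p, v p ≠ 0) {m : ℕ} (hm : 2 * m = n) (ho : Odd m)
    (hp : Per v (m : ZMod n)) : Odd #((range m).filter (fun i : ℕ => FF v (i : ZMod n))) := by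
  have h1 : #((range (m + m)).filter (fun i : ℕ => FF v (i : ZMod n))) =
      2 * #((range m).filter (fun i : ℕ => FF v (i : ZMod n))) := by
    simp only [Finset.card_filter]
    rw [Finset.sum_range_add, two_mul]
    congr 1
    refine Finset.sum_congr rfl fun i _ => ?_
    rw [Nat.cast_add, add_comm, FF_per hp]
  have h2 : #((range (m + m)).filter (fun i : ℕ => FF v (i : ZMod n))) = Nat.card (PerG v) := by
    rw [Nat.card_eq_fintype_card, Fintype.card_subtype]
    refine Finset.card_bij (fun i _ => (i : ZMod n) - hv.choose) ?_ ?_ ?_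
    · intro i hi
      simp only [Finset.mem_filter, Finset.mem_univ, true_and] at hi ⊢
      exact hi.2.2
    · intro i hi i' hi' e
      simp only [Finset.mem_filter, Finset.mem_range] at hi hi'
      have := (ZMod.natCast_eq_natCast_iff' _ _ _).1 (sub_left_injective e)
      rwa [Nat.mod_eq_of_lt (by omega), Nat.mod_eq_of_lt (by omega)] at this
    · intro h hh
      simp only [Finset.mem_filter, Finset.mem_univ, true_and] at hh
      refine ⟨(h + hv.choose).val, ?_, by simp⟩
      simp only [Finset.mem_filter, Finset.mem_range]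
      refine ⟨by have := ZMod.val_lt (h + hv.choose); omega, hv, ?_⟩
      have : Per v h := hh
      simpa using this
  have h3 := AddSubgroup.card_addSubgroup_dvd_card (PerG v)
  rw [← h2, h1, Nat.card_zmod] at h3
  exact Odd.of_dvd_nat ho (Nat.dvd_of_mul_dvd_mul_left (by norm_num) (h3.trans hm.symm.dvd))

lemma good_phi (hn : 3 ≤ n) {m : ℕ} (hm : 2 * m = n) (ho : Odd m)
    (w : ZMod n → Fin (2 * j + 1)) : Good (sP j) w ↔ Good (sM j) (phi w) := by
  have hper : ∀ h, Per w h ↔ Per (phi w) h :=
    fun h => ⟨per_phi, fun hh => by simpa [phi_phi] using per_phi hh⟩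
  by_cases hv : ∃ p, cl w p ≠ 0
  · unfold Good
    refine forall_congr' fun h => ?_
    rw [← hper]
    refine forall_congr' fun hp => forall_congr' fun _ => and_congr_right fun h2 => ?_
    have e : h.val = m := by omega
    have hp' : Per (cl w) (m : ZMod n) := by
      rw [← e, ZMod.natCast_zmod_val]; exact per_cl hp
    rw [PP_M, PP_phi, e, ho.neg_one_pow, (odd_cnt hv hm ho hp').neg_one_pow]
    simp
  · push Not at hv
    have h1 : Per w 1 := by
      intro a
      have h2 := hv a
      have h3 := hv (a + 1)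
      simp only [cl] at h2 h3
      exact Fin.ext (by omega)
    have : Fact (1 < n) := ⟨by omega⟩
    have h4 : ¬ 2 * (1 : ZMod n).val = n := by rw [ZMod.val_one]; omega
    exact ⟨fun h => absurd (h 1 h1 one_ne_zero).1 h4,
      fun h => absurd (h 1 ((hper 1).1 h1) one_ne_zero).1 h4⟩

lemma sum_eq (hn : 3 ≤ n) (j : ℕ) :
    ∑ w : ZMod n → Fin (2 * j + 1), #{ρ | Comp (sP j) w ρ} =
      ∑ w : ZMod n → Fin (2 * j + 1), #{ρ | Comp (sM j) w ρ} := by
  by_cases h : ∃ m, 2 * m = n ∧ Odd m
  · obtain ⟨m, hm, ho⟩ := h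
    have hi : Function.Involutive (phi : (ZMod n → Fin (2 * j + 1)) → _) := phi_phi
    rw [← Equiv.sum_comp (hi.toPerm _) (fun w => #{ρ | Comp (sM j) w ρ})]
    refine Finset.sum_congr rfl fun w _ => card_eq
      (fun h => ⟨per_phi, fun hh => by simpa [phi_phi] using per_phi hh⟩) (good_phi hn hm ho w)
  · refine Finset.sum_congr rfl fun w _ => card_eq (fun _ => Iff.rfl) ?_
    unfold Good
    refine forall_congr' fun g => forall_congr' fun hp => forall_congr' fun _ =>
      and_congr_right fun h2 => ?_
    have : Even g.val := by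
      by_contra h3
      exact h ⟨_, h2, Nat.not_even_iff_odd.1 h3⟩
    rw [PP_M, this.neg_one_pow, one_mul]

end Pool.Agent.H.MP_ccaf84_co
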