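import Pool.Agent.H.MP_ccaf84_co.D

set_option autoImplicit false

namespace Pool.Agent.H.MP_ccaf84_co
open Finset

def Seg {n K : ℕ} (s : Fin K → Bool) (π : Equiv.Perm (Fin n)) (f : Fin n → Fin K) : Prop :=
  ∀ i i', i < i' → f i < f i' ∨ (f i = f i' ∧ (s (f i) = true ↔ π i < π i'))

instance {n K : ℕ} (s : Fin K → Bool) (π : Equiv.Perm (Fin n)) (f : Fin n → Fin K) :
    Decidable (Seg s π f) := by unfold Seg; infer_instance

def pr {n : ℕ} (ρ : ZMod n ≃ Fin n) : Equiv.Perm (Fin n) :=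
  ρ.symm.trans ((Equiv.addRight 1).trans ρ)

lemma pr_apply {n : ℕ} (ρ : ZMod n ≃ Fin n) (a : ZMod n) : pr ρ (ρ a) = ρ (a + 1) := by
  simp [pr]

lemma card_seg {n K : ℕ} [NeZero n] (s : Fin K → Bool) (ρ : ZMod n ≃ Fin n) :
    #{w | Comp s w ρ} = #{f | Seg s (pr ρ) f} := by
  symm
  refine Finset.card_bij (fun f _ => f ∘ ρ) ?_ ?_ ?_
  · intro f hf
    simp only [Finset.mem_filter, Finset.mem_univ, true_and] at hf ⊢
    intro a b hab
    have := hf _ _ hab
    rwa [pr_apply, pr_apply] at this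
  · intro f _ f' _ e
    exact ρ.surjective.injective_comp_right e
  · intro w hw
    simp only [Finset.mem_filter, Finset.mem_univ, true_and] at hw ⊢
    refine ⟨w ∘ ρ.symm, fun i i' h => ?_, by funext a; simp⟩
    obtain ⟨a, rfl⟩ := ρ.surjective i
    obtain ⟨b, rfl⟩ := ρ.surjective i'
    rw [pr_apply, pr_apply]
    simpa using hw a b h

def xs {l : ℕ} (π : Equiv.Perm (Fin (l + 1))) : Fin l → Bool :=
  fun i => decide (π i.castSucc < π i.succ)

lemma seg_loc {l K : ℕ} (s : Fin K → Bool) (π : Equiv.Perm (Fin (l + 1)))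
    (f : Fin (l + 1) → Fin K) : Seg s π f ↔ ∀ i : Fin l, f i.castSucc < f i.succ ∨
      (f i.castSucc = f i.succ ∧ s (f i.castSucc) = xs π i) := by
  let r : Fin K × Fin (l + 1) → Fin K × Fin (l + 1) → Prop := fun p q =>
    p.1 < q.1 ∨ (p.1 = q.1 ∧ (s p.1 = true ↔ p.2 < q.2))
  have : IsTrans _ r := ⟨by
    rintro ⟨a, x⟩ ⟨b, y⟩ ⟨c, z⟩ (h | ⟨h, h'⟩) (g | ⟨g, g'⟩)
    · exact Or.inl (lt_trans h g)
    · exact Or.inl (lt_of_lt_of_eq h g)
    · exact Or.inl (lt_of_eq_of_lt h g)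
    · refine Or.inr ⟨h.trans g, ?_⟩
      simp only at h h' g g' ⊢
      subst h
      by_cases hs : s a = true
      · exact ⟨fun _ => (h'.1 hs).trans (g'.1 hs), fun _ => hs⟩
      · refine ⟨fun h => absurd h hs, fun h => ?_⟩
        have h1 := not_lt.1 (fun e => hs (h'.2 e))
        have h2 := not_lt.1 (fun e => hs (g'.2 e))
        exact absurd h (not_lt.2 (h2.trans h1))⟩
  have key := Fin.liftFun_iff_succ r (f := fun i => (f i, π i))
  have e : Seg s π f ↔ Relator.LiftFun (· < ·) r (fun i => (f i, π i)) (fun i => (f i, π i)) :=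
    ⟨fun h i i' hi => h i i' hi, fun h i i' hi => h hi⟩
  rw [e, key]
  refine forall_congr' fun i => or_congr_right (and_congr_right fun _ => ?_)
  simp only [xs]
  cases s (f i.castSucc) <;> simp

lemma seg_P {l : ℕ} (j : ℕ) (π : Equiv.Perm (Fin (l + 1))) (f : Fin (l + 1) → Fin (2 * j + 1)) :
    Seg (sP j) π f ↔ Loc j (xs π) f := seg_loc _ _ _

lemma seg_M {l : ℕ} (j : ℕ) (π : Equiv.Perm (Fin (l + 1))) (f : Fin (l + 1) → Fin (2 * j + 1)) :
    Seg (sM j) π f ↔ Loc j (fun i => !xs π i) f := by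
  rw [seg_loc]
  refine forall_congr' fun i => or_congr_right (and_congr_right fun _ => ?_)
  simp only [sM]
  cases sg (f i.castSucc) <;> cases xs π i <;> simp

open Classical in
lemma rho_eq (l : ℕ) (hl : 2 ≤ l) (j : ℕ) :
    #{ρ : ZMod (l + 1) ≃ Fin (l + 1) | ∃ f, Seg (sP j) (pr ρ) f} =
      #{ρ : ZMod (l + 1) ≃ Fin (l + 1) | ∃ f, Seg (sM j) (pr ρ) f} := by
  have := tri' (R := ZMod (l + 1) ≃ Fin (l + 1)) l (fun ρ => xs (pr ρ))
    (fun ρ i => !xs (pr ρ) i) (fun j => by
      have h := sum_eq (n := l + 1) (by omega) j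
      simp only [Finset.card_filter] at h
      rw [Finset.sum_comm, Finset.sum_comm (s := univ (α := ZMod (l + 1) → Fin (2 * j + 1)))] at h
      simp only [← Finset.card_filter, card_seg, seg_P, seg_M] at h
      exact h) j
  simp only [seg_P, seg_M, loc_ex]
  convert this

lemma pr_cyc {n : ℕ} [NeZero n] (ρ : ZMod n ≃ Fin n) (a b : Fin n) : (pr ρ).SameCycle a b := by
  obtain ⟨a, rfl⟩ := ρ.surjective a
  obtain ⟨b, rfl⟩ := ρ.surjective b
  have : ∀ t : ℕ, (pr ρ ^ t) (ρ a) = ρ (a + t) := by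
    intro t
    induction t with
    | zero => simp
    | succ t ih => rw [pow_succ', Equiv.Perm.mul_apply, ih, pr_apply]; push_cast; rw [add_assoc]
  exact ⟨((b - a).val : ℕ), by rw [zpow_natCast, this]; simp⟩

lemma cyc_conj {n : ℕ} (hn : 2 ≤ n) {π π' : Equiv.Perm (Fin n)} (h : ∀ a b, π.SameCycle a b)
    (h' : ∀ a b, π'.SameCycle a b) : IsConj π π' := by
  have : Nontrivial (Fin n) := Fin.nontrivial_iff_two_le.2 hn
  have key : ∀ {π : Equiv.Perm (Fin n)}, (∀ a b, π.SameCycle a b) →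
      π.IsCycle ∧ π.support = univ := by
    intro π h
    have h1 : ∀ a, π a ≠ a := by
      intro a ha
      obtain ⟨b, hb⟩ := exists_ne a
      exact hb ((h a b).eq_of_left ha).symm
    obtain ⟨a⟩ : Nonempty (Fin n) := inferInstance
    exact ⟨⟨a, h1 a, fun b _ => h a b⟩, Finset.eq_univ_of_forall fun a => by simpa using h1 a⟩
  exact (key h).1.isConj (key h').1 (by rw [(key h).2, (key h').2])

lemma pr_trans {n : ℕ} (ρ : ZMod n ≃ Fin n) (g : Equiv.Perm (Fin n)) :
    pr (ρ.trans g) = g * pr ρ * g⁻¹ := by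
  ext i; simp [pr]

open Classical in
lemma fiber {n : ℕ} [NeZero n] (hn : 2 ≤ n) : ∃ C : ℕ, 0 < C ∧ ∀ P : Equiv.Perm (Fin n) → Prop,
    #{ρ : ZMod n ≃ Fin n | P (pr ρ)} =
      #{π : Equiv.Perm (Fin n) | (∀ a b, π.SameCycle a b) ∧ P π} * C := by
  obtain ⟨ρ0⟩ : Nonempty (ZMod n ≃ Fin n) := ⟨Fintype.equivFinOfCardEq (ZMod.card n)⟩
  refine ⟨#{ρ : ZMod n ≃ Fin n | pr ρ = pr ρ0}, Finset.card_pos.2 ⟨ρ0, by simp⟩, fun P => ?_⟩
  rw [Finset.card_eq_sum_card_fiberwise (f := pr)
    (t := {π : Equiv.Perm (Fin n) | (∀ a b, π.SameCycle a b) ∧ P π}), ← smul_eq_mul,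
    ← Finset.sum_const]
  · refine Finset.sum_congr rfl fun π hπ => ?_
    simp only [Finset.mem_filter, Finset.mem_univ, true_and] at hπ
    obtain ⟨g, hg⟩ := isConj_iff.1 (cyc_conj hn (pr_cyc ρ0) hπ.1)
    symm
    refine Finset.card_bij (fun ρ _ => ρ.trans g) ?_ ?_ ?_
    · intro ρ hρ
      simp only [Finset.mem_filter, Finset.mem_univ, true_and] at hρ ⊢
      rw [pr_trans, hρ, hg]
      exact ⟨hπ.2, rfl⟩
    · intro ρ _ ρ' _ e
      ext a
      have := congrArg (fun f : ZMod n ≃ Fin n => f a) e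
      simp only [Equiv.trans_apply] at this
      rw [g.injective this]
    · intro ρ hρ
      simp only [Finset.mem_filter, Finset.mem_univ, true_and] at hρ ⊢
      refine ⟨ρ.trans (g⁻¹ : Equiv.Perm (Fin n)), ?_, by ext a; simp⟩
      rw [pr_trans, hρ.2, ← hg]; group
  · intro ρ hρ
    simp only [Finset.coe_filter, Finset.mem_univ, true_and, Set.mem_setOf_eq] at hρ ⊢
    exact ⟨pr_cyc ρ, hρ⟩

lemma seg_iff {n k : ℕ} (σ : Fin k → Bool) (π : Equiv.Perm (Fin n)) :
    (∃ e : Fin (k + 1) → ℕ, Monotone e ∧ e 0 = 0 ∧ e (Fin.last k) = n ∧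
      ∀ (c : Fin k) (i i' : Fin n), e c.castSucc ≤ i → i < i' → (i' : ℕ) < e c.succ →
        if σ c = true then π i < π i' else π i' < π i) ↔ ∃ f, Seg σ π f := by
  constructor
  · rintro ⟨e, hm, h0, hl, h⟩
    have hc : ∀ (i : Fin n) (c : Fin k),
        (c : ℕ) < #{c : Fin k | e c.succ ≤ i} ↔ e c.succ ≤ i := fun i c =>
      Fin.lt_card_filter_univ_iff_apply_of_imp (fun c : Fin k => e c.succ ≤ i)
        (fun a b hab ha => (hm (Fin.succ_le_succ_iff.2 hab)).trans ha)
    have hk : ∀ i : Fin n, #{c : Fin k | e c.succ ≤ i} < k := by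
      intro i
      rcases k with _ | k
      · have := i.2
        have h2 : Fin.last 0 = 0 := rfl
        rw [h2] at hl
        omega
      · have h1 := (hc i (Fin.last k)).not
        rw [Fin.succ_last, hl] at h1
        have := h1.2 (by have := i.2; omega)
        simp only [Fin.val_last] at this
        omega
    let f : Fin n → Fin k := fun i => ⟨_, hk i⟩
    have f1 : ∀ i : Fin n, (i : ℕ) < e (f i).succ := fun i =>
      not_le.1 ((hc i (f i)).not.1 (lt_irrefl _))
    have f2 : ∀ i : Fin n, e (f i).castSucc ≤ i := by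
      intro i
      rcases Fin.eq_zero_or_eq_succ (f i).castSucc with h1 | ⟨c, h1⟩
      · rw [h1, h0]; exact Nat.zero_le _
      · rw [h1]
        apply (hc i c).1
        have := congrArg Fin.val h1
        simp only [Fin.val_castSucc, Fin.val_succ, f] at this
        omega
    refine ⟨f, fun i i' hi => ?_⟩
    have hle : f i ≤ f i' := by
      show #{c : Fin k | e c.succ ≤ i} ≤ #{c : Fin k | e c.succ ≤ i'}
      refine Finset.card_le_card fun c hc => ?_
      simp only [Finset.mem_filter, Finset.mem_univ, true_and] at hc ⊢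
      exact hc.trans hi.le
    rcases hle.lt_or_eq with h1 | h1
    · exact Or.inl h1
    · refine Or.inr ⟨h1, ?_⟩
      have := h (f i) i i' (f2 i) hi (h1 ▸ f1 i')
      split_ifs at this with h2
      · exact ⟨fun _ => this, fun _ => h2⟩
      · exact ⟨fun h3 => absurd h3 h2, fun h3 => absurd h3 (not_lt.2 this.le)⟩
  · rintro ⟨f, hf⟩
    have hm : Monotone f := by
      intro a b hab
      rcases hab.lt_or_eq with h | h
      · rcases hf a b h with h | h
        · exact h.le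
        · exact h.1.le
      · rw [h]
    have hc : ∀ (c : ℕ) (i : Fin n), (i : ℕ) < #{i : Fin n | (f i : ℕ) < c} ↔ (f i : ℕ) < c :=
      fun c i => Fin.lt_card_filter_univ_iff_apply_of_imp (fun i : Fin n => (f i : ℕ) < c)
        (fun a b hab ha => lt_of_le_of_lt (hm hab) ha)
    refine ⟨fun c => #{i : Fin n | (f i : ℕ) < c}, fun a b hab => ?_, by simp, by simp, ?_⟩
    · refine Finset.card_le_card fun c hc => ?_
      simp only [Finset.mem_filter, Finset.mem_univ, true_and] at hc ⊢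
      exact hc.trans_le hab
    · intro c i i' h1 h2 h3
      have h4 := (hc c.castSucc i).not.1 (not_lt.2 h1)
      have h5 := (hc c.succ i').1 h3
      have h6 : (f i : ℕ) ≤ f i' := hm h2.le
      simp only [Fin.val_castSucc, Fin.val_succ] at h4 h5
      have h7 : f i = c := Fin.ext (by omega)
      rcases hf i i' h2 with h8 | h8
      · have : (f i : ℕ) < f i' := h8
        omega
      · rw [h7] at h8
        split_ifs with h9
        · exact h8.2.1 h9
        · exact lt_of_le_of_ne (not_lt.1 (fun e => h9 (h8.2.2 e)))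
            (fun e => h2.ne' (π.injective e))

open Classical in
lemma main (j : ℕ) (hj : 1 ≤ j) (n : ℕ) (hn : 1 ≤ n) :
    #{π : Equiv.Perm (Fin n) | (∀ a b, π.SameCycle a b) ∧ ∃ f, Seg (sP j) π f} =
      #{π : Equiv.Perm (Fin n) | (∀ a b, π.SameCycle a b) ∧ ∃ f, Seg (sM j) π f} := by
  by_cases h : n ≤ 2
  · have : ∀ (s : Fin (2 * j + 1) → Bool) (π : Equiv.Perm (Fin n)), ∃ f, Seg s π f :=
      fun s π => ⟨Fin.castLE (by omega), fun i i' hi => Or.inl hi⟩
    simp only [this]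
  · obtain ⟨l, rfl⟩ : ∃ l, n = l + 1 := ⟨n - 1, by omega⟩
    obtain ⟨C, hC, hf⟩ := fiber (n := l + 1) (by omega)
    have := rho_eq l (by omega) j
    have h1 := hf (fun π => ∃ f, Seg (sP j) π f)
    have h2 := hf (fun π => ∃ f, Seg (sM j) π f)
    refine Nat.eq_of_mul_eq_mul_right hC ?_
    convert h1.symm.trans (Eq.trans ?_ h2)
    convert this

end Pool.Agent.H.MP_ccaf84_co
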